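import Mathlib
import Pool.Agent.H759R2.Kad.Props

open scoped ComplexOrder InnerProductSpace ComplexConjugate
open Finset

noncomputable section

namespace H759R2.Kad

universe u v

namespace Fourth

lemma sum_signs {M : Type u} [AddCommMonoid M] (n : ℕ) (F : (Fin (n + 1) → ℤˣ) → M) :
    ∑ e : Fin (n + 1) → ℤˣ, F e = ∑ e : Fin n → ℤˣ, (F (Fin.cons 1 e) + F (Fin.cons (-1) e)) := by
  rw [← (Fin.consEquiv (fun _ : Fin (n + 1) => ℤˣ)).sum_comp F, Fintype.sum_prod_type,
    Finset.sum_comm]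
  refine Finset.sum_congr rfl fun e _ => ?_
  have h : (univ : Finset ℤˣ) = {1, -1} := by decide
  rw [h, Finset.sum_insert (by decide), Finset.sum_singleton]
  rfl

section ring

variable {B : Type u} [Ring B]

/-- the Rademacher sum -/
def S {n : ℕ} (x : Fin n → B) (e : Fin n → ℤˣ) : B := ∑ k, (e k : ℤ) • x k

lemma S_cons_one {n : ℕ} (x : Fin (n + 1) → B) (e : Fin n → ℤˣ) :
    S x (Fin.cons 1 e) = x 0 + S (fun k => x k.succ) e := by
  unfold S
  rw [Fin.sum_univ_succ]
  simp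

lemma S_cons_neg {n : ℕ} (x : Fin (n + 1) → B) (e : Fin n → ℤˣ) :
    S x (Fin.cons (-1) e) = -x 0 + S (fun k => x k.succ) e := by
  unfold S
  rw [Fin.sum_univ_succ]
  simp

lemma second (a : B) : ∀ (n : ℕ) (x : Fin n → B),
    ∑ e : Fin n → ℤˣ, S x e * a * S x e = (2 ^ n : ℕ) • ∑ j, x j * a * x j := by
  intro n
  induction n with
  | zero => intro x; simp [S]
  | succ n ih =>
    intro x
    rw [sum_signs]
    have h1 : ∀ e : Fin n → ℤˣ, S x (Fin.cons 1 e) * a * S x (Fin.cons 1 e)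
        + S x (Fin.cons (-1) e) * a * S x (Fin.cons (-1) e)
        = 2 • (x 0 * a * x 0) + 2 • (S (fun k => x k.succ) e * a * S (fun k => x k.succ) e) := by
      intro e
      rw [S_cons_one, S_cons_neg]
      noncomm_ring
    rw [Finset.sum_congr rfl fun e _ => h1 e, Finset.sum_add_distrib, ← Finset.smul_sum,
      ← Finset.smul_sum, ih, Fin.sum_univ_succ, Finset.sum_const, Finset.card_univ]
    have h2 : Fintype.card (Fin n → ℤˣ) = 2 ^ n := by simp
    rw [h2, smul_smul, smul_add, ← pow_succ' 2 n]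
    congr 1
    rw [smul_smul, ← pow_succ' 2 n]

/-- the value of the fourth moment (up to `2^n`) -/
def Z {n : ℕ} (x : Fin n → B) : B :=
  (∑ i, x i * x i) * (∑ i, x i * x i) + ∑ i, ∑ j, x i * x j * x i * x j
    + ∑ i, ∑ j, x i * (x j * x j) * x i - 2 • ∑ i, x i * x i * x i * x i

lemma Z_succ {n : ℕ} (x : Fin (n + 1) → B) :
    Z x = Z (fun k => x k.succ) + ((∑ i : Fin n, x i.succ * x i.succ) * (x 0 * x 0)
      + (x 0 * x 0) * (∑ i : Fin n, x i.succ * x i.succ)
      + (∑ i : Fin n, x i.succ * x 0 * x i.succ) * x 0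
      + x 0 * (∑ i : Fin n, x i.succ * x 0 * x i.succ)
      + (∑ i : Fin n, x i.succ * (x 0 * x 0) * x i.succ)
      + x 0 * (∑ i : Fin n, x i.succ * x i.succ) * x 0 + x 0 * x 0 * x 0 * x 0) := by
  unfold Z
  simp only [Fin.sum_univ_succ, Finset.sum_add_distrib]
  have h1 : ∑ j : Fin n, x 0 * x j.succ * x 0 * x j.succ
      = x 0 * ∑ i : Fin n, x i.succ * x 0 * x i.succ := by
    rw [Finset.mul_sum]
    refine Finset.sum_congr rfl fun j _ => by noncomm_ring
  have h2 : ∑ i : Fin n, x i.succ * x 0 * x i.succ * x 0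
      = (∑ i : Fin n, x i.succ * x 0 * x i.succ) * x 0 := by
    rw [Finset.sum_mul]
  have h3 : ∑ j : Fin n, x 0 * (x j.succ * x j.succ) * x 0
      = x 0 * (∑ i : Fin n, x i.succ * x i.succ) * x 0 := by
    rw [Finset.mul_sum, Finset.sum_mul]
  rw [h1, h2, h3]
  noncomm_ring

lemma fourth : ∀ (n : ℕ) (x : Fin n → B),
    ∑ e : Fin n → ℤˣ, S x e ^ 4 = (2 ^ n : ℕ) • Z x := by
  intro n
  induction n with
  | zero => intro x; simp [S, Z]
  | succ n ih =>
    intro x
    rw [sum_signs]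
    set y := x 0 with hy
    set T : (Fin n → ℤˣ) → B := S (fun k => x k.succ) with hT
    have h1 : ∀ e : Fin n → ℤˣ, S x (Fin.cons 1 e) ^ 4 + S x (Fin.cons (-1) e) ^ 4
        = 2 • (T e ^ 4 + (T e * 1 * T e) * (y * y) + (y * y) * (T e * 1 * T e)
          + (T e * y * T e) * y + y * (T e * y * T e) + T e * (y * y) * T e
          + y * (T e * 1 * T e) * y + y * y * y * y) := by
      intro e
      rw [S_cons_one, S_cons_neg]
      noncomm_ring
    rw [Finset.sum_congr rfl fun e _ => h1 e, ← Finset.smul_sum]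
    simp only [Finset.sum_add_distrib]
    rw [ih, ← Finset.sum_mul, ← Finset.mul_sum, ← Finset.sum_mul, ← Finset.mul_sum,
      ← Finset.sum_mul, ← Finset.mul_sum, Finset.sum_const, Finset.card_univ]
    rw [second 1, second y, second (y * y)]
    have h2 : Fintype.card (Fin n → ℤˣ) = 2 ^ n := by simp
    rw [h2, Z_succ, pow_succ' 2 n, mul_smul]
    congr 1
    simp only [mul_one, smul_add, smul_mul_assoc, mul_smul_comm]
    abel

end ring

section cstar

variable {B : Type u} [CStarAlgebra B] [PartialOrder B] [StarOrderedRing B]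

lemma sq_nonneg' {x : B} (hx : IsSelfAdjoint x) : 0 ≤ x * x := by
  have := star_mul_self_nonneg x
  rwa [hx.star_eq] at this

lemma V_nonneg {n : ℕ} {x : Fin n → B} (hx : ∀ k, IsSelfAdjoint (x k)) :
    0 ≤ ∑ i, x i * x i :=
  Finset.sum_nonneg fun i _ => sq_nonneg' (hx i)

lemma V_le {V : B} (hV : 0 ≤ V) : V ≤ (‖V‖ : ℝ) • (1 : B) := by
  have := IsSelfAdjoint.le_algebraMap_norm_self (a := V) (ha := IsSelfAdjoint.of_nonneg hV)
  rwa [Algebra.algebraMap_eq_smul_one] at this

lemma V_sq {V : B} (hV : 0 ≤ V) : V * V ≤ (‖V‖ : ℝ) • V := by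
  set s := CFC.sqrt V with hs
  have h1 : s * s = V := CFC.sqrt_mul_sqrt_self V hV
  have hs0 : 0 ≤ s := CFC.sqrt_nonneg V
  have hsa : IsSelfAdjoint s := IsSelfAdjoint.of_nonneg hs0
  have h2 : 0 ≤ (‖V‖ : ℝ) • (1 : B) - V := sub_nonneg.mpr (V_le hV)
  have h3 : 0 ≤ star s * ((‖V‖ : ℝ) • (1 : B) - V) * s := star_left_conjugate_nonneg h2 s
  rw [hsa.star_eq] at h3
  have h4 : s * ((‖V‖ : ℝ) • (1 : B) - V) * s = (‖V‖ : ℝ) • V - V * V := by
    rw [mul_sub, sub_mul, mul_smul_comm, mul_one, smul_mul_assoc, h1]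
    congr 1
    calc s * V * s = s * (s * s) * s := by rw [h1]
      _ = (s * s) * (s * s) := by noncomm_ring
      _ = V * V := by rw [h1]
  rw [h4] at h3
  exact sub_nonneg.mp h3

lemma Z_le {n : ℕ} {x : Fin n → B} (hx : ∀ k, IsSelfAdjoint (x k)) :
    Z x ≤ (3 * ‖∑ k, x k * x k‖ : ℝ) • ∑ k, x k * x k := by
  set V := ∑ k, x k * x k with hVdef
  have hV : 0 ≤ V := V_nonneg hx
  have h1 : V * V ≤ (‖V‖ : ℝ) • V := V_sq hV
  have h3 : ∑ i, ∑ j, x i * (x j * x j) * x i ≤ (‖V‖ : ℝ) • V := by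
    have e1 : ∀ i, ∑ j, x i * (x j * x j) * x i = x i * V * x i := by
      intro i
      rw [hVdef, Finset.mul_sum, Finset.sum_mul]
    rw [Finset.sum_congr rfl fun i _ => e1 i]
    have e2 : (‖V‖ : ℝ) • V = ∑ i, (‖V‖ : ℝ) • (x i * x i) := by
      rw [← Finset.smul_sum]
    rw [e2]
    refine Finset.sum_le_sum fun i _ => ?_
    have h2 : 0 ≤ (‖V‖ : ℝ) • (1 : B) - V := sub_nonneg.mpr (V_le hV)
    have h4 : 0 ≤ star (x i) * ((‖V‖ : ℝ) • (1 : B) - V) * x i :=
      star_left_conjugate_nonneg h2 (x i)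
    rw [(hx i).star_eq, mul_sub, sub_mul, mul_smul_comm, mul_one, smul_mul_assoc] at h4
    exact sub_nonneg.mp h4
  have h2 : ∑ i, ∑ j, x i * x j * x i * x j ≤ ∑ i, ∑ j, x i * (x j * x j) * x i := by
    have e1 : 0 ≤ ∑ i, ∑ j, star (x i * x j - x j * x i) * (x i * x j - x j * x i) :=
      Finset.sum_nonneg fun i _ => Finset.sum_nonneg fun j _ => star_mul_self_nonneg _
    have e2 : ∀ i j, star (x i * x j - x j * x i) * (x i * x j - x j * x i)
        = x j * (x i * x i) * x j + x i * (x j * x j) * x i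
          - x j * x i * x j * x i - x i * x j * x i * x j := by
      intro i j
      rw [star_sub, star_mul, star_mul, (hx i).star_eq, (hx j).star_eq]
      noncomm_ring
    simp only [e2, Finset.sum_sub_distrib, Finset.sum_add_distrib] at e1
    rw [Finset.sum_comm (f := fun i j => x j * (x i * x i) * x j),
      Finset.sum_comm (f := fun i j => x j * x i * x j * x i)] at e1
    have e3 : (0 : B) ≤ (1 / 2 : ℝ) • ((∑ i, ∑ j, x i * (x j * x j) * x i
        + ∑ i, ∑ j, x i * (x j * x j) * x i - ∑ i, ∑ j, x i * x j * x i * x j)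
        - ∑ i, ∑ j, x i * x j * x i * x j) := smul_nonneg (by norm_num) e1
    have e4 : (1 / 2 : ℝ) • ((∑ i, ∑ j, x i * (x j * x j) * x i
        + ∑ i, ∑ j, x i * (x j * x j) * x i - ∑ i, ∑ j, x i * x j * x i * x j)
        - ∑ i, ∑ j, x i * x j * x i * x j) = ∑ i, ∑ j, x i * (x j * x j) * x i
          - ∑ i, ∑ j, x i * x j * x i * x j := by
      set p := ∑ i, ∑ j, x i * (x j * x j) * x i
      set q := ∑ i, ∑ j, x i * x j * x i * x j
      have : p + p - q - q = (2 : ℝ) • (p - q) := by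
        rw [two_smul]; abel
      rw [this, smul_smul]
      norm_num
    rw [e4] at e3
    exact sub_nonneg.mp e3
  have h4 : 0 ≤ 2 • ∑ i, x i * x i * x i * x i := by
    refine nsmul_nonneg (Finset.sum_nonneg fun i _ => ?_) 2
    have h5 : IsSelfAdjoint (x i * x i) := by
      rw [isSelfAdjoint_iff, star_mul, (hx i).star_eq]
    have := sq_nonneg' h5
    rwa [← mul_assoc] at this
  calc Z x ≤ V * V + ∑ i, ∑ j, x i * x j * x i * x j
        + ∑ i, ∑ j, x i * (x j * x j) * x i := by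
        unfold Z
        exact sub_le_self _ h4
    _ ≤ (‖V‖ : ℝ) • V + (‖V‖ : ℝ) • V + (‖V‖ : ℝ) • V :=
        add_le_add (add_le_add h1 (h2.trans h3)) h3
    _ = _ := by
        rw [← add_smul, ← add_smul]
        congr 1
        ring

end cstar

end Fourth

theorem prove_fourth : St_fourth.{u} := by
  intro B _ _ _ n x hx
  have h1 := Fourth.fourth n x
  unfold Fourth.S at h1
  rw [h1]
  have h2 := Fourth.Z_le hx
  have h3 : ∀ k, x k ^ 2 = x k * x k := fun k => sq (x k)
  simp only [h3]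
  rw [← Nat.cast_smul_eq_nsmul ℝ, mul_smul]
  push_cast
  exact smul_le_smul_of_nonneg_left h2 (by positivity)

end H759R2.Kad
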